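import Mathlib

/-!
Circular symmetrisation and Green's functions (definitions).
-/

set_option autoImplicit false

namespace Pool.Agent.H99.Circ

/-- The angular measure of `E ∩ {|z| = r}`: `r * angLen E r` is the length of this set. -/
noncomputable def angLen (E : Set ℂ) (r : ℝ) : ℝ :=
  (MeasureTheory.volume
    {θ : ℝ | -Real.pi < θ ∧ θ ≤ Real.pi ∧ (r : ℂ) * Complex.exp (θ * Complex.I) ∈ E}).toReal

/-- The circular symmetrisation of `E`. -/
noncomputable def circSym (E : Set ℂ) : Set ℂ :=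
  {z | (∀ w : ℂ, ‖w‖ = ‖z‖ → w ∈ E) ∨
    ((∃ w ∈ E, ‖w‖ = ‖z‖) ∧ z ≠ 0 ∧ |Complex.arg z| < 1 / 2 * angLen E ‖z‖)}

/-- `g` is the Green's function of `G` with pole `a`: harmonic off the pole, with a logarithmic
pole at `a`, and tending to `0` at the boundary of `G` in the extended plane. -/
def IsGreen (G : Set ℂ) (a : ℂ) (g : ℂ → ℝ) : Prop :=
  InnerProductSpace.HarmonicOnNhd g (G \ {a}) ∧
  (∃ h : ℂ → ℝ, InnerProductSpace.HarmonicAt h a ∧
    ∀ᶠ z in nhdsWithin a {a}ᶜ, g z = h z - Real.log ‖z - a‖) ∧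
  ∀ ε > 0, ∃ K, IsCompact K ∧ K ⊆ G ∧ ∀ z ∈ G \ K, |g z| < ε

/-- The level set `{z ∈ G : g(z) > lam}` (the pole, where `g = +∞`, belongs to it). -/
def level (G : Set ℂ) (a : ℂ) (g : ℂ → ℝ) (lam : ℝ) : Set ℂ :=
  {z | z ∈ G ∧ (z = a ∨ lam < g z)}

end Pool.Agent.H99.Circ
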