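import Pool.Agent.H99.Circ.Slit

/-!
The counterexample: the plane slit along `[1, ∞)`, pole `1/2`, level `log 2`.
-/

set_option autoImplicit false

open Complex

namespace Pool.Agent.H99.Circ

lemma mem_dom_neg (z : ℂ) : z ∈ dom (-1) ↔ z.re < 1 ∨ z.im ≠ 0 := by
  unfold dom L
  rw [Set.mem_ofPred_eq, Complex.mem_slitPlane_iff]
  simp

lemma mem_dom_pos (z : ℂ) : z ∈ dom 1 ↔ -1 < z.re ∨ z.im ≠ 0 := by
  unfold dom L
  rw [Set.mem_ofPred_eq, Complex.mem_slitPlane_iff]
  simp
  constructor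
  · rintro (h | h)
    · left; linarith
    · right; exact h
  · rintro (h | h)
    · left; linarith
    · right; exact h

lemma dom_open (s : ℝ) : IsOpen (dom s) := by
  have : dom s = L s ⁻¹' slitPlane := rfl
  rw [this]
  apply Complex.isOpen_slitPlane.preimage
  unfold L
  fun_prop

lemma dom_neg_starConvex : StarConvex ℝ (0 : ℂ) (dom (-1)) := by
  intro z hz a b ha hb hab
  rw [smul_zero, zero_add]
  rw [mem_dom_neg] at hz ⊢
  rw [Complex.smul_re, Complex.smul_im, smul_eq_mul, smul_eq_mul]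
  rcases hz with h | h
  · left
    rcases le_or_gt z.re 0 with h0 | h0
    · have := mul_nonpos_of_nonneg_of_nonpos hb h0
      linarith
    · have : b * z.re ≤ 1 * z.re := mul_le_mul_of_nonneg_right (by linarith) h0.le
      linarith
  · by_cases hb0 : b = 0
    · left; rw [hb0]; simp
    · right
      exact mul_ne_zero hb0 h

lemma angLen_dom_neg {r : ℝ} (hr : 1 ≤ r) : angLen (dom (-1)) r = 2 * Real.pi := by
  have hset : {θ : ℝ | -Real.pi < θ ∧ θ ≤ Real.pi ∧
      (r : ℂ) * Complex.exp (θ * Complex.I) ∈ dom (-1)} = Set.Ioc (-Real.pi) Real.pi \ {0} := by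
    ext θ
    rw [Set.mem_ofPred_eq, mem_dom_neg, Complex.re_ofReal_mul, Complex.im_ofReal_mul,
      Complex.exp_ofReal_mul_I_re, Complex.exp_ofReal_mul_I_im]
    simp only [Set.mem_sdiff, Set.mem_Ioc, Set.mem_singleton_iff]
    constructor
    · rintro ⟨h1, h2, h3⟩
      refine ⟨⟨h1, h2⟩, ?_⟩
      intro h0
      rw [h0] at h3
      simp at h3
      linarith
    · rintro ⟨⟨h1, h2⟩, h3⟩
      refine ⟨h1, h2, ?_⟩
      by_cases h4 : Real.sin θ = 0
      · left
        have h5 : θ = Real.pi := by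
          by_contra h6
          rcases lt_or_gt_of_ne h3 with h7 | h7
          · have := Real.sin_neg_of_neg_of_neg_pi_lt h7 h1
            linarith
          · have := Real.sin_pos_of_pos_of_lt_pi h7 (lt_of_le_of_ne h2 h6)
            linarith
        rw [h5, Real.cos_pi]
        linarith
      · right
        exact mul_ne_zero (by linarith) h4
  rw [angLen, hset]
  have h1 : MeasureTheory.volume (Set.Ioc (-Real.pi) Real.pi \ {0}) =
      ENNReal.ofReal (2 * Real.pi) := by
    rw [MeasureTheory.measure_sdiff_null (by simp), Real.volume_Ioc]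
    congr 1; ring
  rw [h1, ENNReal.toReal_ofReal (by positivity)]

lemma circSym_dom_neg : circSym (dom (-1)) = dom 1 := by
  ext z
  rw [mem_dom_pos]
  unfold circSym
  rw [Set.mem_ofPred_eq]
  rcases lt_or_ge ‖z‖ 1 with hz | hz
  · constructor
    · intro _
      left
      have := Complex.abs_re_le_norm z
      rw [abs_le] at this
      linarith
    · intro _
      left
      intro w hw
      rw [mem_dom_neg]
      left
      have := Complex.re_le_norm w
      linarith
  · have hne : ¬ ∀ w : ℂ, ‖w‖ = ‖z‖ → w ∈ dom (-1) := by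
      intro h
      have := h (‖z‖ : ℝ) (by simp)
      rw [mem_dom_neg] at this
      simp at this
      linarith
    have hex : ∃ w ∈ dom (-1), ‖w‖ = ‖z‖ := by
      refine ⟨-(‖z‖ : ℝ), ?_, by simp⟩
      rw [mem_dom_neg]
      left
      simp
      linarith
    have hz0 : z ≠ 0 := by
      intro h; rw [h] at hz; simp at hz; linarith
    rw [angLen_dom_neg hz]
    constructor
    · rintro (h | ⟨-, -, h⟩)
      · exact absurd h hne
      · have h1 : |arg z| < Real.pi := by linarith
        have h2 : z ∈ slitPlane := by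
          rw [Complex.mem_slitPlane_iff_arg]
          refine ⟨?_, hz0⟩
          intro h3
          rw [h3, abs_of_pos Real.pi_pos] at h1
          exact lt_irrefl _ h1
        rw [Complex.mem_slitPlane_iff] at h2
        rcases h2 with h2 | h2
        · left; linarith
        · right; exact h2
    · intro h
      right
      refine ⟨hex, hz0, ?_⟩
      have h2 : z ∈ slitPlane := by
        rw [Complex.mem_slitPlane_iff]
        by_cases him : z.im = 0
        · left
          rcases h with h | h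
          · by_contra h3
            push Not at h3
            have h4 : ‖z‖ = |z.re| := by
              rw [← Complex.re_add_im z, him]
              simp [Complex.norm_real]
            rw [h4, abs_of_nonpos h3] at hz
            linarith
          · exact absurd him h
        · right; exact him
      have h3 : arg z ≠ Real.pi := (Complex.mem_slitPlane_iff_arg.1 h2).1
      have h4 := Complex.neg_pi_lt_arg z
      have h5 := Complex.arg_le_pi z
      have h6 : |arg z| < Real.pi := abs_lt.2 ⟨h4, lt_of_le_of_ne h5 h3⟩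
      linarith

/-- on the circle `|z| = 9/10` the Green's function of the plane slit along `[1, ∞)` exceeds
`log 2` -/
lemma big {c : ℝ} (hc : 0 < c) (hc2 : c ^ 2 = 1 + (-1) / 2) {z : ℂ} (hz : ‖z‖ = 9 / 10)
    (hza : z ≠ ((1 / 2 : ℝ) : ℂ)) : Real.log 2 < gr (-1) c z := by
  have hre : z.re ≤ 9 / 10 := by rw [← hz]; exact Complex.re_le_norm z
  have hzd : z ∈ dom (-1) := by
    rw [mem_dom_neg]; left; linarith
  set w := sq (L (-1) z) with hw
  have h0 : L (-1) z ≠ 0 := Complex.slitPlane_ne_zero hzd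
  have hwre : 0 < w.re := sq_re_pos hzd
  have hP : 0 < ‖w + c‖ := by
    apply norm_pos_iff.2
    apply ne_zero_of_re
    rw [Complex.add_re, Complex.ofReal_re]; linarith
  have hPsq : ‖w + c‖ ^ 2 = ‖w‖ ^ 2 + 2 * c * w.re + c ^ 2 := by
    rw [Complex.sq_norm, Complex.sq_norm, Complex.normSq_apply, Complex.normSq_apply]
    simp
    ring
  have hQsq : ‖w - c‖ ^ 2 = ‖w‖ ^ 2 - 2 * c * w.re + c ^ 2 := by
    rw [Complex.sq_norm, Complex.sq_norm, Complex.normSq_apply, Complex.normSq_apply]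
    simp
    ring
  have hk := key (s := -1) (by norm_num) hc2 hzd
  rw [← hw] at hk
  have hza' : 0 < ‖z - ((1 / 2 : ℝ) : ℂ)‖ := norm_pos_iff.2 (sub_ne_zero.2 hza)
  have hQ : 0 < ‖w - c‖ := by
    by_contra h
    have : ‖w - c‖ = 0 := le_antisymm (not_lt.1 h) (norm_nonneg _)
    rw [this, mul_zero] at hk
    linarith
  -- main inequality
  have h1 : ‖w‖ ^ 2 = ‖L (-1) z‖ := sq_normSq h0
  have h2 : 2 * w.re ^ 2 = ‖L (-1) z‖ + (L (-1) z).re := sq_re_sq h0
  have h3 : (L (-1) z).re = 1 - z.re := by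
    unfold L; simp; ring
  have h4 : (L (-1) z).im = - z.im := by
    unfold L; simp
  have h5 : z.re ^ 2 + z.im ^ 2 = (9 / 10) ^ 2 := by
    rw [← hz, Complex.sq_norm, Complex.normSq_apply]; ring
  have h6 : ‖L (-1) z‖ ^ 2 = (1 - z.re) ^ 2 + z.im ^ 2 := by
    rw [Complex.sq_norm, Complex.normSq_apply, h3, h4]; ring
  set m := ‖L (-1) z‖ with hm
  have hm0 : 0 ≤ m := norm_nonneg _
  have h7 : m ^ 2 = 1 - 2 * z.re + 81 / 100 := by
    have e : (1 - z.re) ^ 2 + z.im ^ 2 = 1 - 2 * z.re + (z.re ^ 2 + z.im ^ 2) := by ring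
    rw [h6, e, h5]; norm_num
  have h8 : (2 * c * w.re) ^ 2 = m + (1 - z.re) := by
    have : (2 * c * w.re) ^ 2 = 2 * c ^ 2 * (2 * w.re ^ 2) := by ring
    rw [this, hc2, h2, h3]; ring
  have h9 : 3 * (m + 1 / 2) < 5 * (2 * c * w.re) := by
    have hB : 0 < 2 * c * w.re := by positivity
    by_contra h
    push Not at h
    have h' := mul_self_le_mul_self (by positivity) h
    have e1 : 5 * (2 * c * w.re) * (5 * (2 * c * w.re)) = 25 * (2 * c * w.re) ^ 2 := by ring
    have e2 : 3 * (m + 1 / 2) * (3 * (m + 1 / 2)) = 9 * m ^ 2 + 9 * m + 9 / 4 := by ring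
    rw [e1, e2, h8] at h'
    linarith [sq_nonneg m]
  have h10 : 2 * ‖w - c‖ < ‖w + c‖ := by
    have : (2 * ‖w - c‖) ^ 2 < ‖w + c‖ ^ 2 := by
      rw [mul_pow, hQsq, hPsq, h1, hc2]; linarith
    exact lt_of_pow_lt_pow_left₀ 2 hP.le this
  have hg : gr (-1) c z = Real.log (‖w + c‖ ^ 2 / (‖w + c‖ * ‖w - c‖)) := by
    rw [Real.log_div (by positivity) (by positivity), Real.log_pow, ← hk, gr]
    push_cast
    rw [hw]
  have hrat : ‖w + c‖ ^ 2 / (‖w + c‖ * ‖w - c‖) = ‖w + c‖ / ‖w - c‖ := by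
    field_simp
  rw [hg, hrat]
  apply Real.log_lt_log (by norm_num)
  rw [lt_div_iff₀ hQ]
  exact h10

lemma small {c : ℝ} (hc : 0 < c) (hc2 : c ^ 2 = 1 + 1 / 2) :
    gr 1 c (-(9 / 10 : ℝ) : ℂ) ≤ Real.log 2 := by
  have hL : L 1 (-(9 / 10 : ℝ) : ℂ) = ((1 / 10 : ℝ) : ℂ) := by
    unfold L; push_cast; norm_num
  have hsq : sq ((1 / 10 : ℝ) : ℂ) = ((Real.sqrt (1 / 10) : ℝ) : ℂ) := by
    rw [sq, ← Complex.ofReal_log (by norm_num)]
    have : ((Real.log (1 / 10) : ℝ) : ℂ) / 2 = ((Real.log (1 / 10) / 2 : ℝ) : ℂ) := by push_cast; ring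
    rw [this, ← Complex.ofReal_exp]
    congr 1
    rw [Real.exp_half, Real.exp_log (by norm_num)]
  unfold gr
  rw [hL, hsq, ← Complex.ofReal_add, Complex.norm_real]
  have h1 : ‖(-(9 / 10 : ℝ) : ℂ) - ((1 / 2 : ℝ) : ℂ)‖ = 7 / 5 := by
    rw [← Complex.ofReal_neg, ← Complex.ofReal_sub, Complex.norm_real]
    norm_num
  rw [h1]
  set t := Real.sqrt (1 / 10) with ht
  have ht0 : 0 ≤ t := Real.sqrt_nonneg _
  have ht2 : t ^ 2 = 1 / 10 := Real.sq_sqrt (by norm_num)
  have h2 : (t + c) ^ 2 ≤ 2 * (7 / 5) := by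
    have e1 : (t * c) ^ 2 ≤ (1 / 2) ^ 2 := by
      rw [mul_pow, ht2, hc2]; norm_num
    have e2 : t * c ≤ 1 / 2 := le_of_sq_le_sq e1 (by norm_num)
    have e3 : (t + c) ^ 2 = t ^ 2 + 2 * (t * c) + c ^ 2 := by ring
    rw [e3, ht2, hc2]
    linarith
  have h3 : 2 * Real.log ‖t + c‖ = Real.log ((t + c) ^ 2) := by
    rw [Real.log_pow, Real.norm_eq_abs, Real.log_abs]
    push_cast
    rfl
  rw [h3, ← Real.log_div (by positivity) (by norm_num)]
  apply Real.log_le_log (by positivity)
  rw [div_le_iff₀ (by norm_num)]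
  linarith

theorem counterexample : ∃ (D : Set ℂ) (a : ℝ) (g gs : ℂ → ℝ) (lam : ℝ),
    IsOpen D ∧ SimplyConnectedSpace D ∧ 0 < a ∧ (a : ℂ) ∈ D ∧
    IsGreen D a g ∧ IsGreen (circSym D) a gs ∧ 0 < lam ∧
    ¬ circSym (level D a g lam) ⊆ level (circSym D) a gs lam := by
  refine ⟨dom (-1), 1 / 2, gr (-1) (Real.sqrt (1 / 2)), gr 1 (Real.sqrt (3 / 2)), Real.log 2,
    dom_open _, ?_, by norm_num, ?_, ?_, ?_, Real.log_pos (by norm_num), ?_⟩
  · have hne : (dom (-1)).Nonempty := ⟨0, by rw [mem_dom_neg]; left; simp⟩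
    have := dom_neg_starConvex.contractibleSpace hne
    infer_instance
  · rw [mem_dom_neg]; left; rw [Complex.ofReal_re]; norm_num
  · apply gr_isGreen (by norm_num) (Real.sqrt_pos.2 (by norm_num))
    rw [Real.sq_sqrt (by norm_num)]; norm_num
  · rw [circSym_dom_neg]
    apply gr_isGreen (by norm_num) (Real.sqrt_pos.2 (by norm_num))
    rw [Real.sq_sqrt (by norm_num)]; norm_num
  · intro hsub
    have h1 : (-(9 / 10 : ℝ) : ℂ) ∈ circSym (level (dom (-1)) ((1 / 2 : ℝ) : ℂ)
        (gr (-1) (Real.sqrt (1 / 2))) (Real.log 2)) := by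
      left
      intro w hw
      have hw' : ‖w‖ = 9 / 10 := by
        rw [hw, ← Complex.ofReal_neg, Complex.norm_real]; norm_num
      refine ⟨?_, ?_⟩
      · rw [mem_dom_neg]; left
        have := Complex.re_le_norm w
        linarith
      · right
        apply big (Real.sqrt_pos.2 (by norm_num)) _ hw'
        · intro h
          rw [h, Complex.norm_real] at hw'
          norm_num at hw'
        · rw [Real.sq_sqrt (by norm_num)]; norm_num
    obtain ⟨-, h2 | h2⟩ := hsub h1
    · have := congrArg Complex.re h2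
      rw [← Complex.ofReal_neg, Complex.ofReal_re, Complex.ofReal_re] at this
      norm_num at this
    · have h3 := small (c := Real.sqrt (3 / 2)) (Real.sqrt_pos.2 (by norm_num))
        (by rw [Real.sq_sqrt (by norm_num)]; norm_num)
      exact absurd h2 (not_lt.2 h3)

end Pool.Agent.H99.Circ
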