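import Pool.Agent.H99.Circ.Defs

/-!
Green's functions of slit planes.
-/

set_option autoImplicit false

open Complex

namespace Pool.Agent.H99.Circ

/-- principal square root -/
noncomputable def sq (z : ℂ) : ℂ := Complex.exp (Complex.log z / 2)

lemma sq_sq {z : ℂ} (hz : z ≠ 0) : sq z ^ 2 = z := by
  rw [sq, ← Complex.exp_nat_mul]
  push_cast
  rw [mul_div_cancel₀ _ (two_ne_zero), Complex.exp_log hz]

lemma sq_re_pos {z : ℂ} (hz : z ∈ slitPlane) : 0 < (sq z).re := by
  rw [sq, Complex.exp_re]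
  apply mul_pos (Real.exp_pos _)
  apply Real.cos_pos_of_mem_Ioo
  have h1 := Complex.neg_pi_lt_arg z
  have h2 := Complex.arg_le_pi z
  have h3 : Complex.arg z ≠ Real.pi := (Complex.mem_slitPlane_iff_arg.1 hz).1
  have h4 : Complex.arg z < Real.pi := lt_of_le_of_ne h2 h3
  have h5 : (Complex.log z / 2).im = Complex.arg z / 2 := by
    rw [Complex.div_ofNat_im, Complex.log_im]
  rw [h5]
  constructor <;> linarith

lemma sq_analyticAt {z : ℂ} (hz : z ∈ slitPlane) : AnalyticAt ℂ sq z := by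
  unfold sq
  apply AnalyticAt.cexp
  apply AnalyticAt.div_const
  exact analyticAt_clog hz

lemma sq_re_sq {z : ℂ} (hz : z ≠ 0) : 2 * (sq z).re ^ 2 = ‖z‖ + z.re := by
  have h := sq_sq hz
  have h1 : ‖sq z‖ ^ 2 = ‖z‖ := by rw [← norm_pow, h]
  rw [Complex.sq_norm, Complex.normSq_apply] at h1
  have h2 := congrArg Complex.re h
  rw [pow_two, Complex.mul_re] at h2
  linarith

lemma sq_normSq {z : ℂ} (hz : z ≠ 0) : ‖sq z‖ ^ 2 = ‖z‖ := by
  rw [← norm_pow, sq_sq hz]

lemma sq_mem_slitPlane {w : ℂ} (hw : 0 < w.re) : w ^ 2 ∈ slitPlane := by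
  rw [Complex.mem_slitPlane_iff]
  by_cases h : w.im = 0
  · left
    rw [pow_two, Complex.mul_re, h]
    nlinarith
  · right
    rw [pow_two, Complex.mul_im]
    intro h2
    have : w.re * w.im = 0 := by linarith
    rcases mul_eq_zero.1 this with h3 | h3
    · linarith
    · exact h h3

/-- the affine map `z ↦ 1 + s z` with `s = ±1` -/
def L (s : ℝ) (z : ℂ) : ℂ := 1 + s * z

/-- slit plane -/
def dom (s : ℝ) : Set ℂ := {z | L s z ∈ slitPlane}

/-- Green's function of the slit plane `dom s` with pole at `1/2`. -/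
noncomputable def gr (s c : ℝ) (z : ℂ) : ℝ :=
  2 * Real.log ‖sq (L s z) + c‖ - Real.log ‖z - (1 / 2 : ℝ)‖

lemma L_analytic (s : ℝ) (z : ℂ) : AnalyticAt ℂ (L s) z := by
  unfold L
  fun_prop

lemma ne_zero_of_re {w : ℂ} (h : 0 < w.re) : w ≠ 0 := by
  intro h0; rw [h0] at h; simp at h

lemma key {s c : ℝ} (hs : s ^ 2 = 1) (hc2 : c ^ 2 = 1 + s / 2) {z : ℂ}
    (hz : z ∈ dom s) :
    ‖z - (1 / 2 : ℝ)‖ = ‖sq (L s z) + c‖ * ‖sq (L s z) - c‖ := by
  have h0 : L s z ≠ 0 := Complex.slitPlane_ne_zero hz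
  have h1 := sq_sq h0
  rw [← norm_mul]
  have h2 : (sq (L s z) + c) * (sq (L s z) - c) = s * (z - (1 / 2 : ℝ)) := by
    have hc2' : (c : ℂ) ^ 2 = 1 + s / 2 := by exact_mod_cast hc2
    have : (sq (L s z) + c) * (sq (L s z) - c) = sq (L s z) ^ 2 - c ^ 2 := by ring
    rw [this, h1, hc2', L]
    push_cast
    ring
  rw [h2, norm_mul, Complex.norm_real]
  have : ‖s‖ = 1 := by
    rw [Real.norm_eq_abs]
    have : |s| ^ 2 = 1 := by rw [sq_abs, hs]
    nlinarith [abs_nonneg s]
  rw [this, one_mul]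

lemma gr_isGreen {s c : ℝ} (hs : s ^ 2 = 1) (hc : 0 < c) (hc2 : c ^ 2 = 1 + s / 2) :
    IsGreen (dom s) ((1 / 2 : ℝ) : ℂ) (gr s c) := by
  have hplus : ∀ z ∈ dom s, 0 < (sq (L s z) + c).re := by
    intro z hz
    have := sq_re_pos hz
    rw [Complex.add_re, Complex.ofReal_re]; linarith
  have hana : ∀ z ∈ dom s, AnalyticAt ℂ (fun z => sq (L s z) + c) z := by
    intro z hz
    apply AnalyticAt.add
    · exact (sq_analyticAt hz).comp (L_analytic s z)
    · exact analyticAt_const
  have hhar : ∀ z ∈ dom s, InnerProductSpace.HarmonicAt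
      (fun z => 2 * Real.log ‖sq (L s z) + c‖) z := by
    intro z hz
    have h1 := AnalyticAt.harmonicAt_log_norm (hana z hz) (ne_zero_of_re (hplus z hz))
    exact h1.const_smul (c := (2 : ℝ))
  have ha : ((1 / 2 : ℝ) : ℂ) ∈ dom s := by
    change L s _ ∈ slitPlane
    rw [Complex.mem_slitPlane_iff]
    left
    have : (L s ((1 / 2 : ℝ) : ℂ)) = ((1 + s / 2 : ℝ) : ℂ) := by
      unfold L; push_cast; ring
    rw [this, Complex.ofReal_re, ← hc2]
    positivity
  refine ⟨?_, ⟨_, hhar _ ha, ?_⟩, ?_⟩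
  · intro z hz
    have hz1 : z ∈ dom s := hz.1
    have hz2 : z - ((1 / 2 : ℝ) : ℂ) ≠ 0 := sub_ne_zero.2 hz.2
    have h2 : InnerProductSpace.HarmonicAt (fun z : ℂ => Real.log ‖z - ((1 / 2 : ℝ) : ℂ)‖) z := by
      exact AnalyticAt.harmonicAt_log_norm (f := fun z : ℂ => z - ((1 / 2 : ℝ) : ℂ)) (z := z)
        (by fun_prop) hz2
    exact (hhar z hz1).sub h2
  · filter_upwards with z
    rfl
  · intro ε hε
    -- constants
    obtain ⟨δ, hδ0, hδ1, hδ2⟩ : ∃ δ > 0, δ ≤ c / 2 ∧ 2 * c * (4 * δ / c ^ 2) < ε := by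
      refine ⟨min (c / 2) (ε * c / 16), by positivity, min_le_left _ _, ?_⟩
      have h1 : min (c / 2) (ε * c / 16) ≤ ε * c / 16 := min_le_right _ _
      have h2 : 2 * c * (4 * min (c / 2) (ε * c / 16) / c ^ 2) =
          8 * min (c / 2) (ε * c / 16) / c := by field_simp; ring
      rw [h2, div_lt_iff₀ hc]
      nlinarith [mul_pos hε hc]
    set M : ℝ := 2 * c + 8 * c / ε + 1 with hM
    have hM0 : 0 < M := by positivity
    let C : Set ℂ := {w | δ ≤ w.re ∧ ‖w‖ ≤ M}
    have hC : IsCompact C := by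
      apply Metric.isCompact_of_isClosed_isBounded
      · apply IsClosed.inter
        · exact isClosed_le continuous_const Complex.continuous_re
        · exact isClosed_le continuous_norm continuous_const
      · rw [isBounded_iff_forall_norm_le]
        exact ⟨M, fun w hw => hw.2⟩
    let ψ : ℂ → ℂ := fun w => s * (w ^ 2 - 1)
    have hψ : Continuous ψ := by fun_prop
    have hsC : (s : ℂ) ^ 2 = 1 := by exact_mod_cast hs
    have hLψ : ∀ w, L s (ψ w) = w ^ 2 := by
      intro w
      simp only [L, ψ]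
      linear_combination (w ^ 2 - 1) * hsC
    refine ⟨ψ '' C, hC.image hψ, ?_, ?_⟩
    · rintro _ ⟨w, hw, rfl⟩
      change L s (ψ w) ∈ slitPlane
      rw [hLψ]
      exact sq_mem_slitPlane (lt_of_lt_of_le hδ0 hw.1)
    · rintro z ⟨hz, hzK⟩
      set w := sq (L s z) with hw
      have hwre : 0 < w.re := sq_re_pos hz
      have hwC : w ∉ C := by
        intro h
        apply hzK
        refine ⟨w, h, ?_⟩
        simp only [ψ]
        rw [hw, sq_sq (Complex.slitPlane_ne_zero hz), L]
        linear_combination z * hsC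
      have hP : 0 < ‖w + c‖ := norm_pos_iff.2 (ne_zero_of_re (hplus z hz))
      have hPsq : ‖w + c‖ ^ 2 = ‖w‖ ^ 2 + 2 * c * w.re + c ^ 2 := by
        rw [Complex.sq_norm, Complex.sq_norm, Complex.normSq_apply, Complex.normSq_apply]
        simp
        ring
      have hQsq : ‖w - c‖ ^ 2 = ‖w‖ ^ 2 - 2 * c * w.re + c ^ 2 := by
        rw [Complex.sq_norm, Complex.sq_norm, Complex.normSq_apply, Complex.normSq_apply]
        simp
        ring
      have hk := key hs hc2 hz
      rw [← hw] at hk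
      -- bound on `Re w / |w - c|^2`
      have hQ0 : 0 < ‖w - c‖ ∧ 2 * c * w.re < ε * ‖w - c‖ ^ 2 := by
        by_cases h1 : w.re < δ
        · have h2 : c / 2 ≤ ‖w - c‖ := by
            have h3 : |(w - c).re| ≤ ‖w - c‖ := Complex.abs_re_le_norm _
            have h4 : (w - c).re = w.re - c := by simp
            rw [h4, abs_of_neg (by linarith)] at h3
            linarith
          refine ⟨by linarith, ?_⟩
          have h5 : c ^ 2 / 4 ≤ ‖w - c‖ ^ 2 := by nlinarith
          have h6 : 2 * c * δ < ε * (c ^ 2 / 4) := by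
            have : 2 * c * (4 * δ / c ^ 2) = 8 * δ / c := by field_simp; ring
            rw [this, div_lt_iff₀ hc] at hδ2
            nlinarith
          nlinarith [mul_pos hc hwre, mul_le_mul_of_nonneg_left h5 hε.le,
            mul_lt_mul_of_pos_left h1 hc]
        · push Not at h1
          have h2 : M < ‖w‖ := by
            by_contra h3
            push Not at h3
            exact hwC ⟨h1, h3⟩
          have h3 : ‖w‖ - c ≤ ‖w - c‖ := by
            have := norm_sub_norm_le w (c : ℂ)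
            rw [Complex.norm_real, Real.norm_eq_abs, abs_of_pos hc] at this
            exact this
          have h4 : 2 * c < ‖w‖ := by
            have : 0 < 8 * c / ε := by positivity
            linarith
          have h5 : ‖w‖ / 2 ≤ ‖w - c‖ := by linarith
          refine ⟨by linarith [norm_nonneg w], ?_⟩
          have h6 : w.re ≤ ‖w‖ := Complex.re_le_norm w
          have h7 : 8 * c < ε * ‖w‖ := by
            have : 8 * c / ε < ‖w‖ := by linarith
            rw [div_lt_iff₀ hε] at this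
            linarith
          have h8 : ‖w‖ ^ 2 / 4 ≤ ‖w - c‖ ^ 2 := by nlinarith [norm_nonneg w]
          have h9 : 2 * c * w.re ≤ 2 * c * ‖w‖ := by nlinarith
          have h10 : 2 * c * ‖w‖ < ε * (‖w‖ ^ 2 / 4) := by
            have : 0 < ‖w‖ := by linarith
            nlinarith
          nlinarith [mul_le_mul_of_nonneg_left h8 hε.le]
      obtain ⟨hQ, hQ1⟩ := hQ0
      have hg : gr s c z = Real.log (‖w + c‖ ^ 2 / (‖w + c‖ * ‖w - c‖)) := by
        rw [Real.log_div (by positivity) (by positivity), Real.log_pow, ← hk, gr]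
        push_cast
        rw [hw]
      have hrat : ‖w + c‖ ^ 2 / (‖w + c‖ * ‖w - c‖) = ‖w + c‖ / ‖w - c‖ := by
        field_simp
      rw [hg, hrat]
      have h1 : 1 ≤ ‖w + c‖ / ‖w - c‖ := by
        rw [le_div_iff₀ hQ, one_mul]
        have : ‖w - c‖ ^ 2 ≤ ‖w + c‖ ^ 2 := by
          rw [hPsq, hQsq]; nlinarith [mul_pos hc hwre]
        exact le_of_sq_le_sq this hP.le
      rw [abs_of_nonneg (Real.log_nonneg h1)]
      -- log x = 1/2 log x^2 ≤ 1/2 (x^2 - 1)
      have h2 : Real.log (‖w + c‖ / ‖w - c‖) ≤ ((‖w + c‖ / ‖w - c‖) ^ 2 - 1) / 2 := by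
        have h3 : Real.log ((‖w + c‖ / ‖w - c‖) ^ 2) ≤ (‖w + c‖ / ‖w - c‖) ^ 2 - 1 :=
          Real.log_le_sub_one_of_pos (by positivity)
        rw [Real.log_pow] at h3
        push_cast at h3
        linarith
      have h3 : ((‖w + c‖ / ‖w - c‖) ^ 2 - 1) / 2 = 2 * c * w.re / ‖w - c‖ ^ 2 := by
        rw [div_pow, hPsq]
        rw [div_sub_one (by positivity), hQsq]
        have : ‖w‖ ^ 2 - 2 * c * w.re + c ^ 2 ≠ 0 := by rw [← hQsq]; positivity
        field_simp
        ring
      have h4 : 2 * c * w.re / ‖w - c‖ ^ 2 < ε := by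
        rw [div_lt_iff₀ (by positivity)]
        exact hQ1
      linarith

end Pool.Agent.H99.Circ
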