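import Pool.Agent.H99.Circ.Final

/-!
The level sets of Green's functions are not majorised under circular symmetrisation.
-/

set_option autoImplicit false

open Pool.Agent.H99.Circ

theorem Pool.Agent.H99.Circ.slitPlane :
    ∃ (D : Set ℂ) (a : ℝ) (g gs : ℂ → ℝ) (lam : ℝ),
      IsOpen D ∧ SimplyConnectedSpace D ∧ 0 < a ∧ (a : ℂ) ∈ D ∧
      IsGreen D a g ∧ IsGreen (circSym D) a gs ∧ 0 < lam ∧
      ¬ circSym (level D a g lam) ⊆ level (circSym D) a gs lam :=
  counterexample
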